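import Pool.Agent.Helper80.MX.Cn

/-! SPAN over the exact labels `kappa_c` of a system of lines (chapter MAX (5.4)), exact form and finite form. -/

set_option autoImplicit false

namespace Pool.Agent.Helper80.MX

open Finset Filter Topology Pool.Agent.Helper69.RK Pool.Agent.Helper31.EC Pool.Agent.Helper40.EL

noncomputable section

open Sp QS

variable {S : Sp} {m : ℕ}

/-- a component of a tame vector in the space over a label -/
def ot (l : Lab S) {m : ℕ} (y : S.VV m) (i : Fin m) : TR (l.ovr 1 one_pos) :=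
  TR.cor ((l.pj.vv y).chg l.V 1 one_pos) i

/-- the same to full precision -/
def oq (l : Lab S) {m : ℕ} (y : S.VV m) (i : Fin m) : QS (l.ovr 1 one_pos) := mk (ot l y i)

theorem ot_vec (l : Lab S) {m : ℕ} (y : S.VV m) (r : ℝ) : (TR.vec (ot l y)).dg r = up1 l (y.dg r) := by
  show ((l.pj.vv y).chg l.V 1 one_pos).dg r = _
  rw [VV.chg_dg, one_mul, ← l.pj.map_dg]
  rfl

theorem oq_dg_le (l : Lab S) {m : ℕ} (y : S.VV m) (i : Fin m) {r : ℝ} (hr : r ≤ 1) :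
    dg (oq l y i) r ≤ up1 l (y.dg r) := by
  unfold oq
  rw [dg_mk _ hr, ← ot_vec]
  exact TR.cor_dg_le _ i r

theorem vd_oq (l : Lab S) {m : ℕ} (y : S.VV m) {r : ℝ} (hr : r ≤ 1) : vd (oq l y) r = up1 l (y.dg r) := by
  rw [← ot_vec, TR.vec_dg_eq]
  unfold vd
  congr 1
  funext i
  exact dg_mk _ hr

theorem oq_P (s : Sys S m) (l : Lab S) (j : Fin m) : oq l s.P j = oq l s.a j + oq l s.t 0 * oq l s.x j := by
  unfold oq
  rw [← map_mul, ← map_add]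
  rfl

/-- the data of the span theorem over `kappa_c`, for `d` affine forms of the point with coefficients known to the
label, if they are full together with the time -/
def sdk {s : Sys S m} {c : ℝ} (h0 : 0 ≤ c) (h1 : c < 1) {l : Lab S} (hl : IsKap s c l) {d : ℕ}
    (L : Fin d → Fin m → QS (l.ovr 1 one_pos)) (v e : Fin d → QS (l.ovr 1 one_pos))
    (hL : ∀ i j, dg (L i j) 1 ≤ ⊥) (hv : ∀ i, dg (v i) 1 ≤ ⊥) (he : ∀ i, dg (e i) 1 ≤ ⊥)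
    (hf : H (dg (oq l s.t 0) 1 ⊔ vd (fun i => ∑ j, L i j * oq l s.P j + v i * oq l s.t 0 + e i) 1) =
      (d + 1) * (1 - c)) : SD (l.ovr 1 one_pos) (Fin d) where
  t := oq l s.t 0
  a := fun i => ∑ j, L i j * oq l s.a j + e i
  u := fun i => ∑ j, L i j * oq l s.x j + v i
  y := fun i => ∑ j, L i j * oq l s.P j + v i * oq l s.t 0 + e i
  A := up1 l (lA s c)
  B := up1 l (lB s)
  X := up1 l (s.xi 1 ⊔ s.T)
  s := c
  hs0 := h0
  hs1 := h1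
  hy := fun i => by
    have e1 : ∑ j, L i j * oq l s.P j = ∑ j, L i j * oq l s.a j + oq l s.t 0 * ∑ j, L i j * oq l s.x j := by
      rw [Finset.mul_sum, ← Finset.sum_add_distrib]
      refine Finset.sum_congr rfl fun j _ => ?_
      rw [oq_P]
      ring
    rw [e1]
    ring
  hA := fun i => by
    constructor
    · refine (Kn _ 1 le_rfl _).add_mem ?_ ((he i).trans bot_le)
      refine (Kn _ 1 le_rfl _).sum_mem fun j _ => (Kn _ 1 le_rfl _).mul_mem ((hL i j).trans bot_le) ?_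
      exact (oq_dg_le l s.a j le_rfl).trans (up1_mono l ((s.a_le_xi le_rfl).trans le_sup_left))
    · refine (Kn _ 1 le_rfl _).add_mem ?_ ((hv i).trans bot_le)
      refine (Kn _ 1 le_rfl _).sum_mem fun j _ => (Kn _ 1 le_rfl _).mul_mem ((hL i j).trans bot_le) ?_
      exact (oq_dg_le l s.x j le_rfl).trans (up1_mono l ((s.x_le_xi le_rfl).trans le_sup_left))
  hB := by
    have ht : dg (oq l s.t 0) 1 ≤ up1 l (lB s) := (oq_dg_le l s.t 0 le_rfl).trans (up1_mono l le_sup_right)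
    refine ⟨ht, fun i => ?_⟩
    refine (Kn _ 1 le_rfl _).add_mem ((Kn _ 1 le_rfl _).add_mem ?_ ?_) ((he i).trans bot_le)
    · refine (Kn _ 1 le_rfl _).sum_mem fun j _ => (Kn _ 1 le_rfl _).mul_mem ((hL i j).trans bot_le) ?_
      exact (oq_dg_le l s.P j le_rfl).trans (up1_mono l le_sup_left)
    · exact (Kn _ 1 le_rfl _).mul_mem ((hv i).trans bot_le) ht
  hb := by
    have ht : dg (oq l s.t 0) c ≤ ⊥ := (oq_dg_le l s.t 0 h1.le).trans (hl.t_bot h1.le).le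
    refine ⟨le_antisymm ht bot_le, fun i => le_antisymm ?_ bot_le⟩
    refine (Kn _ c h1.le _).add_mem ((Kn _ c h1.le _).add_mem ?_ ?_) ((dg_mono _ h1.le).trans (he i))
    · refine (Kn _ c h1.le _).sum_mem fun j _ => (Kn _ c h1.le _).mul_mem ((dg_mono _ h1.le).trans (hL i j)) ?_
      exact (oq_dg_le l s.P j h1.le).trans (hl.P_bot h1.le).le
    · exact (Kn _ c h1.le _).mul_mem ((dg_mono _ h1.le).trans (hv i)) ht
  hf := by
    rw [hf, Fintype.card_fin]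
  hX := ⟨up1_mono l (sup_le_sup_left (s.t.dg_mono h1.le) _), up1_mono l (B_le s)⟩
  hc := cnn_kap h1.le hl

/-- SPAN over `kappa_c`, finite form: the law of the velocity given the label has no hyperplane atoms -/
theorem span_fin {Z : Sp} {d : ℕ} (D : SD Z (Fin d)) (u : Fin d → TR Z) (hu : ∀ i, D.u i = mk (u i)) (i0 : Fin d)
    (K : ℕ → ℝ) (hK : Z.Sub K) {δ p : ℝ} (hδ : 0 < δ) (hp : 0 < p) :
    ∀ᶠ k in UF, ∀ (a : (Z.F k).Ω → Fin d → ℝ) (b : (Z.F k).Ω → ℝ),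
      (∀ ω ω', (Z.F k).μ ω ≠ 0 → (Z.F k).μ ω' ≠ 0 → (Z.F k).Z ω ω' → a ω = a ω' ∧ b ω = b ω') →
      (∀ ω, a ω i0 = 1) → (∀ ω i, |a ω i| ≤ K k) → (∀ ω, |b ω| ≤ K k) →
      (Z.F k).pb (fun ω => ¬ Z.dl δ k ≤ |∑ i, a ω i * TR.ev (u i) k ω - b ω|) ≤ p := by
  by_contra hcon
  have h1 : ∀ᶠ k in UF, ∃ (a : (Z.F k).Ω → Fin d → ℝ) (b : (Z.F k).Ω → ℝ),
      (∀ ω ω', (Z.F k).μ ω ≠ 0 → (Z.F k).μ ω' ≠ 0 → (Z.F k).Z ω ω' → a ω = a ω' ∧ b ω = b ω') ∧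
      (∀ ω, a ω i0 = 1) ∧ (∀ ω i, |a ω i| ≤ K k) ∧ (∀ ω, |b ω| ≤ K k) ∧
      p < (Z.F k).pb (fun ω => ¬ Z.dl δ k ≤ |∑ i, a ω i * TR.ev (u i) k ω - b ω|) := by
    have h2 := Ultrafilter.eventually_not.mpr hcon
    filter_upwards [h2] with k hk
    by_contra hno
    exact hk fun a b h3 h4 h5 h6 => not_lt.mp fun h7 => hno ⟨a, b, h3, h4, h5, h6, h7⟩
  classical
  -- total choice
  have h2 : ∀ k, ∃ (a : (Z.F k).Ω → Fin d → ℝ) (b : (Z.F k).Ω → ℝ),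
      (∀ ω ω', (Z.F k).μ ω ≠ 0 → (Z.F k).μ ω' ≠ 0 → (Z.F k).Z ω ω' → a ω = a ω' ∧ b ω = b ω') ∧
      (∀ ω, a ω i0 = 1) ∧ ((∃ (a : (Z.F k).Ω → Fin d → ℝ) (b : (Z.F k).Ω → ℝ),
      (∀ ω ω', (Z.F k).μ ω ≠ 0 → (Z.F k).μ ω' ≠ 0 → (Z.F k).Z ω ω' → a ω = a ω' ∧ b ω = b ω') ∧
      (∀ ω, a ω i0 = 1) ∧ (∀ ω i, |a ω i| ≤ K k) ∧ (∀ ω, |b ω| ≤ K k) ∧
      p < (Z.F k).pb (fun ω => ¬ Z.dl δ k ≤ |∑ i, a ω i * TR.ev (u i) k ω - b ω|)) →
      (∀ ω i, |a ω i| ≤ K k) ∧ (∀ ω, |b ω| ≤ K k) ∧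
      p < (Z.F k).pb (fun ω => ¬ Z.dl δ k ≤ |∑ i, a ω i * TR.ev (u i) k ω - b ω|)) := by
    intro k
    by_cases h : ∃ (a : (Z.F k).Ω → Fin d → ℝ) (b : (Z.F k).Ω → ℝ),
      (∀ ω ω', (Z.F k).μ ω ≠ 0 → (Z.F k).μ ω' ≠ 0 → (Z.F k).Z ω ω' → a ω = a ω' ∧ b ω = b ω') ∧
      (∀ ω, a ω i0 = 1) ∧ (∀ ω i, |a ω i| ≤ K k) ∧ (∀ ω, |b ω| ≤ K k) ∧
      p < (Z.F k).pb (fun ω => ¬ Z.dl δ k ≤ |∑ i, a ω i * TR.ev (u i) k ω - b ω|)
    · obtain ⟨a, b, h3, h4, h5⟩ := h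
      exact ⟨a, b, h3, h4, fun _ => h5⟩
    · exact ⟨fun _ _ => 1, fun _ => 0, fun _ _ _ _ _ => ⟨rfl, rfl⟩, fun _ => rfl, fun h' => absurd h' h⟩
  choose a b h3 h4 h5 using h2
  have h6 : ∀ᶠ k in UF, (∀ ω i, |a k ω i| ≤ K k) ∧ (∀ ω, |b k ω| ≤ K k) ∧
      p < (Z.F k).pb (fun ω => ¬ Z.dl δ k ≤ |∑ i, a k ω i * TR.ev (u i) k ω - b k ω|) := by
    filter_upwards [h1] with k hk using h5 k hk
  obtain ⟨la, hla⟩ : ∃ la : Fin d → TR Z, ∀ i k ω, TR.ev (la i) k ω = a k ω i :=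
    ⟨fun i => ⟨fun k ω => a k ω i, K, hK, by filter_upwards [h6] with k hk ω _ using hk.1 ω i⟩, fun _ _ _ => rfl⟩
  obtain ⟨lb, hlb⟩ : ∃ lb : TR Z, ∀ k ω, TR.ev lb k ω = b k ω :=
    ⟨⟨fun k ω => b k ω, K, hK, by filter_upwards [h6] with k hk ω _ using hk.2.1 ω⟩, fun _ _ => rfl⟩
  -- functions of the base are known
  have hkn : ∀ f : TR Z, (∀ k ω ω', (Z.F k).μ ω ≠ 0 → (Z.F k).μ ω' ≠ 0 → (Z.F k).Z ω ω' →
      TR.ev f k ω = TR.ev f k ω') → dg (mk f) 1 ≤ ⊥ := by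
    intro f hf
    rw [dg_mk _ le_rfl, ← Sp.cl_bot]
    apply TR.dg_le_cl f 1 _ (fun _ _ => True) Typ_true (fun _ => 0) (Z.Sub_const le_rfl)
    refine Eventually.of_forall fun k ω ω' h h' _ _ hb _ => ?_
    rw [hf k ω ω' h h' hb, sub_self, abs_zero, zero_mul]
  have hun : IsUnit (∑ i, mk (la i) * (Pj.id Z).qs (D.u i) - mk lb) := by
    refine D.span (Pj.id Z) ⊥ (I_zero_of_le_left bot_le) (fun i => mk (la i)) (mk lb) (fun i => ?_) ?_ i0 ?_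
    · exact hkn _ fun k ω ω' h h' hb => by rw [hla, hla, (h3 k ω ω' h h' hb).1]
    · exact hkn _ fun k ω ω' h h' hb => by rw [hlb, hlb, (h3 k ω ω' h h' hb).2]
    · have e : la i0 = 1 := by
        apply Subtype.ext
        funext k ω
        exact (hla i0 k ω).trans (h4 k ω)
      show IsUnit (mk (la i0))
      rw [e, map_one]
      exact isUnit_one
  have e1 : ∑ i, mk (la i) * (Pj.id Z).qs (D.u i) - mk lb = mk (∑ i, la i * u i - lb) := by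
    rw [map_sub, map_sum]
    congr 1
    refine Finset.sum_congr rfl fun i _ => ?_
    rw [Pj.id_qs, hu i, map_mul]
  rw [e1, isUnit_mk] at hun
  have h7 := hun.levels hδ
  have h8 : Tendsto (fun k => (Z.F k).pb (fun ω => ¬ Z.dl δ k ≤ |TR.ev (∑ i, la i * u i - lb) k ω|)) UF (𝓝 0) := h7
  have h9 := h8.eventually (gt_mem_nhds hp)
  obtain ⟨k, hk, hk'⟩ := (h6.and h9).exists
  have e2 : ∀ ω, TR.ev (∑ i, la i * u i - lb) k ω = ∑ i, a k ω i * TR.ev (u i) k ω - b k ω := by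
    intro ω
    have e3 : TR.evh k ω (∑ i, la i * u i - lb) = ∑ i, TR.evh k ω (la i) * TR.evh k ω (u i) - TR.evh k ω lb := by
      rw [map_sub, map_sum]
      simp only [map_mul]
    refine e3.trans ?_
    rw [TR.evh_apply, hlb k ω]
    congr 1
    exact Finset.sum_congr rfl fun i _ => by rw [TR.evh_apply, TR.evh_apply, hla]
  have e4 : (fun ω => ¬ Z.dl δ k ≤ |TR.ev (∑ i, la i * u i - lb) k ω|) =
      fun ω => ¬ Z.dl δ k ≤ |∑ i, a k ω i * TR.ev (u i) k ω - b k ω| := by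
    funext ω
    rw [e2 ω]
  rw [e4] at hk'
  exact absurd hk' (not_lt.mpr hk.2.2.le)

end

end Pool.Agent.Helper80.MX
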