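import Pool.Agent.Helper42.NS.Rbt
import Pool.Agent.Helper40.EL.W1

/-! Chapter MAX (0.2): extremal systems are rich. For an extremal system of the Lagrangian `h(P|t) - th h(x)`,
`th <= 1`, `v = -lag`, the first digits of the direction satisfy `h(x_r | P, t) >= v r`, on every event of positive
probability of every extension. Closedness under extensions, restrictions, truncations and labels without leak. -/

set_option autoImplicit false

namespace Pool.Agent.Helper80.MX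

open Finset Filter Topology Pool.Agent.Helper69.RK Pool.Agent.Helper31.EC Pool.Agent.Helper40.EL
open Pool.Agent.Helper42.NS Pool.Agent.Helper52.KP

noncomputable section

open Sp Sys

variable {S : Sp} {m : ℕ}

/-- `h(x_r | P, t)` -/
def ric (s : Sys S m) (r : ℝ) : ℝ := h (s.x.dg r) (lB s)

theorem ric_eq (s : Sys S m) (r : ℝ) :
    ric s r = ul (fun k => (s.fin k).q ((s.fin k).kx r) ((s.fin k).kP 1 ⊓ (s.fin k).kt 1)) := by
  unfold ric
  rw [← cl_B, ← s.cl_Ix, h_cl]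
  rfl

theorem ric_congr {T : Sp} {s : Sys S m} {u : Sys T m} (hf : ∀ k, u.fin k = s.fin k) (r : ℝ) : ric u r = ric s r := by
  rw [ric_eq, ric_eq]
  have e : (fun k => (u.fin k).q ((u.fin k).kx r) ((u.fin k).kP 1 ⊓ (u.fin k).kt 1)) =
      fun k => (s.fin k).q ((s.fin k).kx r) ((s.fin k).kP 1 ⊓ (s.fin k).kt 1) := by
    funext k
    rw [hf k]
  rw [e]

theorem ric_pull {T : Sp} (s : Sys S m) (p : Pj T S) (r : ℝ) : ric (s.pull p) r = ric s r := by
  unfold ric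
  have e1 : (s.pull p).x.dg r = p.map (s.x.dg r) := (p.map_dg s.x r).symm
  have e2 : lB (s.pull p) = p.map (lB s) := by
    unfold lB Sys.T
    rw [Pj.map_sup, p.map_dg, p.map_dg]
    rfl
  rw [e1, e2, Pj.h_map]

theorem ric_mono (s : Sys S m) {r r' : ℝ} (hr : r ≤ r') : ric s r ≤ ric s r' := h_mono (s.x.dg_mono hr)

/-- the basic inequality for an extremal system -/
theorem rich_base {th : ℝ} (h0 : 0 ≤ th) (s : Sys S m) (he : Extremal th s) {r : ℝ} (hr0 : 0 ≤ r)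
    (hr1 : r < 1) :
    -(s.lag th) * r + (1 - th) * H (s.xi r) ≤ ric s r := by
  show _ ≤ h (s.x.dg r) (s.P.dg 1 ⊔ s.T)
  obtain ⟨V, hV⟩ : ∃ V : S.Inf, cl V = s.xi r := by
    induction (s.xi r) using Sp.cl_ind with
    | h A => exact ⟨A, rfl⟩
  have hx1 : s.xi r ≤ s.xi 1 := s.xi_mono hr1.le
  have hbc : (s.bc 0 le_rfl).dg (0 + r) ≤ s.xi r := by
    rw [zero_add]
    refine (VV.pt_dg_le s.a s.x (s.t.fl 0 le_rfl) r).trans ?_
    refine sup_le le_rfl ?_
    refine (s.t.fl_dg_le 0 le_rfl r).trans ?_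
    rw [s.t.dg_nonpos le_rfl]
    exact bot_le
  have hz := s.zoom_ineq he 0 r le_rfl hr0 (by linarith) V (by
      rw [hV, s.t.dg_nonpos le_rfl, bot_sup_eq]
      exact sup_le le_sup_right hbc) (by
      rw [hV, sup_eq_left.mpr hx1, s.hT_xi, sub_zero])
  rw [hV, sub_zero, zero_add] at hz
  -- entropies
  obtain ⟨Pd, hPd⟩ : ∃ A, A = s.P.dg 1 := ⟨_, rfl⟩
  have hPx : s.xi r ≤ s.P.dg 1 ⊔ s.x.dg r ⊔ s.T := by
    refine sup_le ?_ (le_sup_right.trans le_sup_left)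
    refine (s.a_le hr1.le).trans ?_
    exact sup_le_sup_right (sup_le_sup_right (s.P.dg_mono hr1.le) _) _
  have hxr : s.x.dg r ≤ s.xi r := le_sup_right
  have e1 : h (s.xi r) (s.P.dg 1 ⊔ s.T) = h (s.x.dg r) (s.P.dg 1 ⊔ s.T) := by
    apply h_congr_left
    · refine hPx.trans ?_
      order
    · order
  -- I(P; xi_r | t)
  have e2 : I (s.P.dg 1) (s.xi r) s.T = H (s.xi r) - h (s.x.dg r) (s.P.dg 1 ⊔ s.T) := by
    rw [I_eq', s.H_T_cond hx1, e1]
  have e3 : I (s.P.dg 1) (s.xi r) s.T = h (s.P.dg 1) s.T - h (s.P.dg 1) (s.T ⊔ s.xi r) := by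
    rw [I_eq, sup_comm s.T]
  -- I(x; xi_r)
  have e4 : I (s.x.dg 1) (s.xi r) ⊥ = H (s.x.dg 1) - h (s.x.dg 1) (s.xi r) := by
    rw [I_eq, h_bot, sup_bot_eq]
  have e5 : I (s.x.dg 1) (s.xi r) ⊥ ≤ H (s.xi r) := by
    rw [I_eq', h_bot]
    have := h_nonneg (s.xi r) (s.x.dg 1 ⊔ ⊥)
    linarith
  have e6 : s.lag th = h (s.P.dg 1) s.T - th * H (s.x.dg 1) := rfl
  have e7 := mul_le_mul_of_nonneg_left e5 h0
  rw [e4] at e7
  nlinarith

/-- rich systems: robustly, `h(x_r | B) >= g r`, `B = (P, t)` -/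
def Rich (s : Sys S m) (g : ℝ) : Prop :=
  ∀ (T : Sp) (p : Pj T S) (E : ∀ k, (T.F k).Ω → Prop) (hE : 0 < ul (T.pr E)) (r : ℝ), 0 ≤ r → r ≤ 1 →
    g * r ≤ ric (s.im p E hE) r

/-- EXTREMAL SYSTEMS ARE RICH -/
theorem rich_of_extremal {th : ℝ} (h0 : 0 ≤ th) (h1 : th ≤ 1) {s : Sys S m} (he : Extremal th s) :
    Rich s (-(s.lag th)) := by
  intro T p E hE r hr0 hr1
  have he' : Extremal th (s.im p E hE) := Sys.Extremal.im he p E hE
  have hl : (s.im p E hE).lag th = s.lag th := Extremal.val_eq he' he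
  set u := s.im p E hE with hu
  have hb : ∀ q : ℝ, 0 ≤ q → q < 1 → -(s.lag th) * q ≤ ric u q := by
    intro q hq0 hq1
    have h2 := rich_base h0 u he' hq0 hq1
    rw [hl] at h2
    have h3 : 0 ≤ (1 - th) * H (u.xi q) := mul_nonneg (by linarith) (H_nonneg _)
    linarith
  rcases lt_or_eq_of_le hr1 with hlt | rfl
  · exact hb r hr0 hlt
  · have h4 : ∀ q : ℝ, 0 ≤ q → q < 1 → -(s.lag th) * q ≤ ric u 1 := fun q a b => (hb q a b).trans (ric_mono u b.le)
    have h5 : Tendsto (fun q : ℝ => -(s.lag th) * q) (𝓝[<] 1) (𝓝 (-(s.lag th) * 1)) :=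
      ((continuous_const.mul continuous_id).tendsto (1 : ℝ)).mono_left nhdsWithin_le_nhds
    refine le_of_tendsto h5 ?_
    filter_upwards [Ioo_mem_nhdsLT (show (0 : ℝ) < 1 from one_pos)] with q hq
    exact h4 q hq.1.le hq.2

namespace Rich

variable {s : Sys S m} {g : ℝ}

theorem base (h : Rich s g) {r : ℝ} (hr0 : 0 ≤ r) (hr1 : r ≤ 1) : g * r ≤ ric s r := by
  have ht : Typ (S := S) (fun _ _ => True) := Typ_true
  have h1 := h S (Pj.id S) (fun _ _ => True) (ul_pr_typ_pos _ ht) r hr0 hr1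
  have e1 := ric_pull (s.im (Pj.id S) (fun _ _ => True) (ul_pr_typ_pos _ ht)) (imq (Pj.id S) (fun _ _ => True)) r
  rw [Sys.im_pull] at e1
  rw [← e1] at h1
  have e2 : ric ((s.pull (Pj.id S)).rest (fun _ _ => True) (ul_pr_typ_pos _ ht)) r = ric (s.pull (Pj.id S)) r := by
    unfold ric
    have e3 : lB ((s.pull (Pj.id S)).rest (fun _ _ => True) (ul_pr_typ_pos _ ht)) =
        restL (fun _ _ => True) (ul_pr_typ_pos _ ht) (lB (s.pull (Pj.id S))) := by
      unfold lB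
      rw [Sys.rest_P_dg, Sys.rest_T, ← restL_sup]
    rw [e3, Sys.rest_x_dg]
    exact h_restL_typ _ ht _ _
  rw [e2, ric_pull] at h1
  exact h1

theorem mono (h : Rich s g) {g' : ℝ} (hg : g' ≤ g) : Rich s g' := by
  intro T p E hE r hr0 hr1
  exact (mul_le_mul_of_nonneg_right hg hr0).trans (h T p E hE r hr0 hr1)

/-- restrictions to events of extensions -/
theorem im (h : Rich s g) {T : Sp} (p : Pj T S) (E : ∀ k, (T.F k).Ω → Prop) (hE : 0 < ul (T.pr E)) :
    Rich (s.im p E hE) g := by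
  intro T' p' E' hE' r hr0 hr1
  obtain ⟨W, q, D, hD, _, h2⟩ := exists_tow s p E hE p' E' hE'
  rw [← ric_congr h2]
  exact h W q D hD r hr0 hr1

/-- extensions -/
theorem pull (h : Rich s g) {T : Sp} (p : Pj T S) : Rich (s.pull p) g := by
  intro T' p' E hE r hr0 hr1
  have h1 := h T' (p'.comp p) E hE r hr0 hr1
  have h2 := ric_pull (s.im (p'.comp p) E hE) (imc p p' E) r
  rw [← h2] at h1
  refine h1.trans (le_of_eq ?_)
  exact (ric_congr (u := (s.im (p'.comp p) E hE).pull (imc p p' E)) (s := (s.pull p).im p' E hE) (fun k => rfl) r)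

/-- restrictions to events -/
theorem rest (h : Rich s g) (E : ∀ k, (S.F k).Ω → Prop) (hE : 0 < ul (S.pr E)) : Rich (s.rest E hE) g :=
  (h.im (Pj.id S) E hE).pull (imq (Pj.id S) E)

/-- the form used in the entropy lattice -/
theorem restL_ge (h : Rich s g) {T : Sp} (p : Pj T S) (E : ∀ k, (T.F k).Ω → Prop) (hE : 0 < ul (T.pr E)) {r : ℝ}
    (hr0 : 0 ≤ r) (hr1 : r ≤ 1) :
    g * r ≤ Pool.Agent.Helper31.EC.h (restL E hE (p.map (s.x.dg r))) (restL E hE (p.map (lB s))) := by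
  have h1 := ((h.pull p).rest E hE).base hr0 hr1
  have e1 : (s.pull p).x.dg r = p.map (s.x.dg r) := (p.map_dg s.x r).symm
  have e2 : lB (s.pull p) = p.map (lB s) := by
    unfold lB Sys.T
    rw [Pj.map_sup, p.map_dg, p.map_dg]
    rfl
  have e3 : lB ((s.pull p).rest E hE) = restL E hE (lB (s.pull p)) := by
    unfold lB
    rw [Sys.rest_P_dg, Sys.rest_T, ← restL_sup]
  unfold ric at h1
  rw [e3, Sys.rest_x_dg, e1, e2] at h1
  exact h1

/-- truncations -/
theorem trn (h : Rich s g) {l : ℝ} (h0 : 0 < l) (h1 : l ≤ 1) : Rich (Pool.Agent.Helper42.NS.trn s l h0 h1) g := by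
  intro T p E hE r hr0 hr1
  rw [← ric_congr (trn_im' s l h0 h1 p E hE)]
  have h2 := h (unt p) (ptu p) E hE (l * r) (mul_nonneg h0.le hr0) (by nlinarith)
  set u := s.im (ptu p) E hE with hu
  have e1 : ric (Pool.Agent.Helper42.NS.trn u l h0 h1) r = Pool.Agent.Helper31.EC.h (u.x.dg (l * r)) (u.P.dg l ⊔ u.t.dg l) / l := by
    unfold ric lB
    have a1 : (Pool.Agent.Helper42.NS.trn u l h0 h1).x.dg r = chgL _ l h0 (u.x.dg (l * r)) := VV.chg_dg _ l h0 u.x r
    have a2 : (Pool.Agent.Helper42.NS.trn u l h0 h1).P.dg 1 = chgL _ l h0 (u.P.dg (l * 1)) := VV.chg_dg _ l h0 u.P 1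
    have a3 : (Pool.Agent.Helper42.NS.trn u l h0 h1).T = chgL _ l h0 (u.t.dg (l * 1)) := VV.chg_dg _ l h0 u.t 1
    rw [a1, a2, a3, ← chgL_sup, mul_one]
    have e2 : ∀ x : (Sp.im (ptu p) E).L, hZ (Sp.im (ptu p) E).tr x = H x := by
      intro x
      induction x using cl_ind
      rw [hZ_cl, H_cl]
    unfold Pool.Agent.Helper31.EC.h
    rw [← chgL_sup, H_chgL, H_chgL, e2, e2]
    ring
  rw [e1, le_div_iff₀ h0]
  have h3 : Pool.Agent.Helper31.EC.h (u.x.dg (l * r)) (lB u) ≤ Pool.Agent.Helper31.EC.h (u.x.dg (l * r)) (u.P.dg l ⊔ u.t.dg l) :=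
    h_anti (sup_le_sup (u.P.dg_mono h1) (u.t.dg_mono h1))
  have h4 : ric u (l * r) = Pool.Agent.Helper31.EC.h (u.x.dg (l * r)) (lB u) := rfl
  rw [h4] at h2
  nlinarith

/-- labels without leak at the point: richness over the label, on events of the space of the label -/
theorem overLab (h : Rich s g) {c : ℝ} {l : Lab S} (hl : DMc s c l) (E : ∀ k, (l.sp.F k).Ω → Prop)
    (hE : 0 < ul (l.sp.pr E)) {r : ℝ} (hr0 : 0 ≤ r) (hr1 : r ≤ 1) :
    g * r ≤ Pool.Agent.Helper31.EC.h (up1 (l.im E) ((s.im l.pj E hE).x.dg r)) (up1 (l.im E) (lB (s.im l.pj E hE))) := by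
  have h1 : DMc (s.im l.pj E hE) c (l.im E) := Lab.DM.im hl E hE
  rw [DMc.h_B h1 le_rfl]
  exact (h.im l.pj E hE).base hr0 hr1

end Rich

/-- extremal systems form a class closed under diagonals -/
theorem diag_extremal (th : ℝ) (h0 : 0 ≤ th) : DiagCl (fun (S : Sp) (s : Sys S m) => Extremal th s) := by
  obtain ⟨S0, s0, h1⟩ := exists_extremal m th h0
  have h2 := DiagCl.of_val (m := m) (fun X => X.q (X.kP 1) (X.kt 1) - th * X.q (X.kx 1) ⊤)
    (fun S s => (s.h_P_UB 1).sub ((s.H_x_UB 1).const_mul th)) (s0.lag th)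
  have e : (fun (S : Sp) (s : Sys S m) => Extremal th s) = fun (S : Sp) (s : Sys S m) =>
      ul (fun k => (s.fin k).q ((s.fin k).kP 1) ((s.fin k).kt 1) - th * (s.fin k).q ((s.fin k).kx 1) ⊤) =
        s0.lag th := by
    funext S s
    apply propext
    rw [← s.lag_eq_ul]
    constructor
    · intro h
      exact Extremal.val_eq h h1
    · intro h S' s'
      rw [h]
      exact h1 S' s'
  rw [e]
  exact h2

/-- RICH EXTREMAL SYSTEMS from a counterexample to `EK` -/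
theorem exists_rich (s : Sys S m) (hx : H (s.x.dg 1) = m) (hP : h (s.P.dg 1) s.T < m) :
    ∃ th g : ℝ, 0 ≤ th ∧ th < 1 ∧ 0 < g ∧ (∃ (S' : Sp) (s' : Sys S' m), Extremal th s') ∧
      ∀ (S' : Sp) (s' : Sys S' m), Extremal th s' → s'.lag th ≤ -g ∧ Rich s' g := by
  have hm : (0 : ℝ) < m := lt_of_le_of_lt (h_nonneg _ _) hP
  obtain ⟨d, hd⟩ : ∃ d, d = (m : ℝ) - h (s.P.dg 1) s.T := ⟨_, rfl⟩
  have hd0 : 0 < d := by rw [hd]; linarith
  have hdm : d ≤ m := by
    rw [hd]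
    have := h_nonneg (s.P.dg 1) s.T
    linarith
  obtain ⟨th, hth⟩ : ∃ th, th = 1 - d / (2 * m) := ⟨_, rfl⟩
  have h1 : 0 < d / (2 * m) := by positivity
  have h2 : d / (2 * m) ≤ 1 / 2 := by
    rw [div_le_div_iff₀ (by positivity) (by norm_num)]
    linarith
  have h3 : s.lag th = -(d / 2) := by
    unfold Sys.lag
    rw [hx, hth]
    have : (1 - d / (2 * m)) * (m : ℝ) = m - d / 2 := by field_simp
    rw [this, hd]
    ring
  refine ⟨th, d / 2, by rw [hth]; linarith, by rw [hth]; linarith, by linarith,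
    exists_extremal m th (by rw [hth]; linarith), fun S' s' he => ?_⟩
  have h4 := he S s
  rw [h3] at h4
  refine ⟨h4, (rich_of_extremal (by rw [hth]; linarith) (by rw [hth]; linarith) he).mono ?_⟩
  linarith

/-- RICH AND ROBUST extremal systems -/
theorem exists_rich_robust (s : Sys S m) (hx : H (s.x.dg 1) = m) (hP : h (s.P.dg 1) s.T < m) (G : ℕ → Gg m)
    (Φ : ℕ → Fnl m) (M : ℝ) (hM : ∀ q S s, (Φ q).f S s ≤ M) :
    ∃ (th g : ℝ) (S' : Sp) (s' : Sys S' m), 0 ≤ th ∧ th < 1 ∧ 0 < g ∧ Extremal th s' ∧ s'.lag th ≤ -g ∧ Rich s' g ∧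
      RobustG G s' ∧ (∀ q, RobF (Φ q) s') ∧
      ∀ (r : ℚ) (h0 : (0 : ℝ) < r) (h1 : (r : ℝ) ≤ 1), RobustG G (Pool.Agent.Helper42.NS.trn s' r h0 h1) ∧
        ∀ q, RobF (Φ q) (Pool.Agent.Helper42.NS.trn s' r h0 h1) := by
  obtain ⟨th, g, h0, h1, hg, hne, h2⟩ := exists_rich s hx hP
  obtain ⟨S', s', he, hr⟩ := exists_robust_trn (fun (S : Sp) (s : Sys S m) => Extremal th s) (diag_extremal th h0)
    (fun S s hs T p E hE => Sys.Extremal.im hs p E hE) hne G Φ M hM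
  exact ⟨th, g, S', s', h0, h1, hg, he, (h2 _ _ he).1, (h2 _ _ he).2, hr⟩

end

end Pool.Agent.Helper80.MX
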