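import Pool.Agent.Helper31.EC.Uns

/-! Chapter MAX (5.4), SPAN: over a maximal label the velocity has no hyperplane atoms. In the exact calculus: if
`A` (line, first digits of the time) and `B` (point, time) have no common labels, robustly, and the point is full, then
`sum l_i u_i - l_0` is a unit for every covector `(l, l_0)` with one unit among the `l_i` which is known to an
independent `V`. Consequence: independent copies of the velocity are affinely independent. -/

set_option autoImplicit false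

namespace Pool.Agent.Helper80.MX

open Finset Filter Topology Pool.Agent.Helper69.RK Pool.Agent.Helper31.EC

noncomputable section

open Sp QS

variable {S : Sp}

/-! ### corners of cells and products of small functions -/

/-- the corner of the cell of level `r` -/
def qfl (f : QS S) (r : ℝ) (hr : 0 ≤ r) : QS S := mk (TR.cor ((TR.vec fun _ : Fin 1 => rep f).fl r hr) 0)

theorem qfl_dg_le (f : QS S) {r : ℝ} (hr : 0 ≤ r) (h1 : r ≤ 1) (l : ℝ) : dg (qfl f r hr) l ≤ dg f r := by
  have e1 : dg f r = (TR.vec fun _ : Fin 1 => rep f).dg r := by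
    conv_lhs => rw [← mk_rep f]
    rw [dg_mk _ h1]
    rfl
  rw [e1]
  have key : ∀ q : ℝ, q ≤ 1 → dg (qfl f r hr) q ≤ (TR.vec fun _ : Fin 1 => rep f).dg r := by
    intro q hq
    unfold qfl
    rw [dg_mk _ hq]
    exact (TR.cor_dg_le _ 0 q).trans (VV.fl_dg_le _ r hr q)
  rcases le_total l 1 with hl | hl
  · exact key l hl
  · rw [dg_cut _ hl]
    exact key 1 le_rfl

theorem sub_qfl_mem (f : QS S) {r : ℝ} (hr : 0 ≤ r) (h1 : r ≤ 1) : f - qfl f r hr ∈ Id S r := by
  have e1 : f - qfl f r hr = mk (rep f - TR.cor ((TR.vec fun _ : Fin 1 => rep f).fl r hr) 0) := by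
    rw [map_sub, mk_rep]
    rfl
  rw [e1, mk_mem_Id h1]
  refine ⟨fun _ _ => True, fun _ => 1, Typ_true, S.Sub_const zero_le_one, Eventually.of_forall fun k ω _ _ => ?_⟩
  rw [TR.ev_zero, sub_zero, one_mul, TR.ev_sub, TR.ev_cor]
  have h2 := VV.fl_sub (TR.vec fun _ : Fin 1 => rep f) r hr k ω 0
  have h3 : (TR.vec fun _ : Fin 1 => rep f).v k ω 0 = TR.ev (rep f) k ω := rfl
  rw [h3] at h2
  rw [abs_le]
  constructor <;> linarith [h2.1, h2.2, S.dl_pos r k]

theorem Id_mul {f g : QS S} {r s : ℝ} (hr : r ≤ 1) (hs : s ≤ 1) (hf : f ∈ Id S r) (hg : g ∈ Id S s) :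
    f * g ∈ Id S (r + s) := by
  obtain ⟨f, rfl⟩ := mk_surj f
  obtain ⟨g, rfl⟩ := mk_surj g
  rw [mk_mem_Id hr] at hf
  rw [mk_mem_Id hs] at hg
  obtain ⟨E, K, hE, hK, hh⟩ := hf
  obtain ⟨E', K', hE', hK', hh'⟩ := hg
  have h1 : TR.Ag (r + s) (f * g) 0 := by
    refine ⟨_, _, hE.and hE', hK.mul hK', ?_⟩
    filter_upwards [hh, hh', hK.1, hK'.1] with k hk hk' k0 k0' ω a b
    have e1 := hk ω a b.1
    have e2 := hk' ω a b.2
    rw [TR.ev_zero, sub_zero] at e1 e2 ⊢
    rw [TR.ev_mul, abs_mul, S.dl_add]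
    have h3 := mul_le_mul e1 e2 (abs_nonneg _) (mul_nonneg k0 (S.dl_pos r k).le)
    calc _ ≤ K k * S.dl r k * (K' k * S.dl s k) := h3
      _ = K k * K' k * (S.dl r k * S.dl s k) := by ring
  have h2 : mk (f * g) ∈ Id S (min (r + s) 1) := (mk_mem_Id (min_le_right _ _)).mpr (h1.anti (min_le_left _ _))
  have h3 : TR.Ag (min (min (r + s) 1) 1) (rep (mk (f * g))) 0 := h2
  rw [min_eq_left (min_le_right (r + s) 1)] at h3
  rw [← map_mul]
  exact h3

/-- a function which is not a unit is small on an event of positive probability -/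
theorem exists_small {f : QS S} (h : ¬ IsUnit f) : ∃ d : ℝ, 0 < d ∧ ∃ (E : ∀ k, (S.F k).Ω → Prop)
    (hE : 0 < ul (S.pr E)), QS.rest E hE f ∈ Id (S.rest E) d := by
  rw [isUnit_iff] at h
  have h1 : ¬ ∀ δ : ℝ, 0 < δ → Typ (fun k ω => S.dl δ k ≤ |TR.ev (rep f) k ω|) := fun h' => h (nd_of_levels h')
  push Not at h1
  obtain ⟨d0, hd0, h2⟩ := h1
  obtain ⟨d, hd⟩ : ∃ d, d = min d0 1 := ⟨_, rfl⟩
  have hdp : 0 < d := by rw [hd]; exact lt_min hd0 one_pos
  have hd1 : d ≤ 1 := by rw [hd]; exact min_le_right _ _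
  have hdd : d ≤ d0 := by rw [hd]; exact min_le_left _ _
  refine ⟨d, hdp, fun k ω => ¬ S.dl d0 k ≤ |TR.ev (rep f) k ω|, ?_⟩
  rcases typ_or (fun k ω => S.dl d0 k ≤ |TR.ev (rep f) k ω|) with h3 | h3
  · exact absurd h3 h2
  · refine ⟨h3, ?_⟩
    have e1 : QS.rest (fun k ω => ¬ S.dl d0 k ≤ |TR.ev (rep f) k ω|) h3 f =
        mk (TR.rest (fun k ω => ¬ S.dl d0 k ≤ |TR.ev (rep f) k ω|) (rep f)) := by
      have e2 : ∀ g : QS S, g = f → QS.rest (fun k ω => ¬ S.dl d0 k ≤ |TR.ev (rep f) k ω|) h3 g =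
          QS.rest (fun k ω => ¬ S.dl d0 k ≤ |TR.ev (rep f) k ω|) h3 f := fun g hg => by rw [hg]
      rw [← e2 _ (mk_rep f), QS.rest_mk]
    rw [e1, mk_mem_Id hd1]
    refine ⟨fun _ _ => True, fun _ => 1, Typ_true, Sub_const _ zero_le_one, ?_⟩
    have h4 := (ul_tendsto (UB_pr (fun k ω => ¬ S.dl d0 k ≤ |TR.ev (rep f) k ω|))).eventually (lt_mem_nhds h3)
    filter_upwards [h4] with k hk ω a _
    have h5 := ((S.F k).rest_supp _ ω a).2 hk.ne'
    rw [TR.ev_zero, sub_zero, one_mul]
    have h6 : |TR.ev (rep f) k ω| < S.dl d0 k := lt_of_not_ge h5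
    exact h6.le.trans (S.dl_anti hdd k)

/-! ### labels without leak and connected pairs -/

/-- `A` and `B` have no common labels inside `X`, on all events of positive probability of all extensions: a label `V`
without leak to `X` at `A` and at `B` has no information about `X` -/
def Cnn (A B X : S.L) : Prop :=
  ∀ (W : Sp) (p : Pj W S) (E : ∀ k, (W.F k).Ω → Prop) (hE : 0 < ul (W.pr E)) (V : (W.rest E).L),
    I V (restL E hE (p.map X)) (restL E hE (p.map A)) = 0 →
    I V (restL E hE (p.map X)) (restL E hE (p.map B)) = 0 → I V (restL E hE (p.map X)) ⊥ = 0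

theorem Cnn.symm {A B X : S.L} (h : Cnn A B X) : Cnn B A X := fun W p E hE V h1 h2 => h W p E hE V h2 h1

theorem NL_add {L : Type*} [PM L] {V G X A : L} (h : I V X A = 0) (hG : G ≤ V ⊔ A) : I (V ⊔ G) X A = 0 := by
  rw [I_chain, h, zero_add]
  exact I_zero_of_le_left hG

/-- independent functions have no leak, on all events -/
theorem NL_of_indep {W : Sp} {p : Pj W S} (E : ∀ k, (W.F k).Ω → Prop) (hE : 0 < ul (W.pr E)) {V : W.L} {X A : S.L}
    (hV : I V (p.map X) ⊥ = 0) (hA : A ≤ X) :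
    I (restL E hE V) (restL E hE (p.map X)) (restL E hE (p.map A)) = 0 := by
  apply I_rest_zero E hE
  have h1 : I V (p.map (A ⊔ X)) ⊥ = 0 := by rwa [sup_eq_right.mpr hA]
  rw [Pj.map_sup] at h1
  have h2 := (I_decomp h1).2
  rwa [sup_bot_eq] at h2

/-! ### full families above a level -/

theorem H_dg_le_sub {f : QS S} {s r : ℝ} (hs : dg f s = ⊥) (h : s ≤ r) : H (dg f r) ≤ r - s := by
  have h1 := h_dg_dg f h
  rwa [hs, h_bot] at h1

theorem H_sup_dg_le {κ : Type} (w : κ → QS S) {s r : ℝ} (hs : ∀ j, dg (w j) s = ⊥) (h : s ≤ r) (T : Finset κ) :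
    H (T.sup fun j => dg (w j) r) ≤ T.card * (r - s) := by
  classical
  induction T using Finset.induction_on with
  | empty => simp [H_bot]
  | insert a T ha ih =>
    rw [Finset.sup_insert, Finset.card_insert_of_notMem ha]
    have h1 := H_sup_le (dg (w a) r) (T.sup fun j => dg (w j) r)
    have h2 := H_dg_le_sub (hs a) h
    push_cast
    linarith

theorem h_sup_dg_dg {κ : Type} (w : κ → QS S) {s r : ℝ} (hr : s ≤ r) (T : Finset κ) (A : S.L)
    (hA : ∀ j ∈ T, dg (w j) s ≤ A) : h (T.sup fun j => dg (w j) r) A ≤ T.card * (r - s) := by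
  classical
  induction T using Finset.induction_on with
  | empty =>
    rw [Finset.sup_empty, h_zero bot_le]
    simp
  | insert a T ha ih =>
    rw [Finset.sup_insert, Finset.card_insert_of_notMem ha]
    have h1 := h_sup_le (dg (w a) r) (T.sup fun j => dg (w j) r) A
    have h2 := h_dg_dg (w a) hr
    have h3 : Pool.Agent.Helper31.EC.h (dg (w a) r) A ≤ Pool.Agent.Helper31.EC.h (dg (w a) r) (dg (w a) s) :=
      h_anti (hA a (Finset.mem_insert_self _ _))
    have h4 := ih (fun j hj => hA j (Finset.mem_insert_of_mem hj))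
    push_cast
    linarith

/-- full at the top: full at every level -/
theorem full_level {κ : Type} [Fintype κ] (w : κ → QS S) {s r : ℝ} (hs : ∀ j, dg (w j) s = ⊥) (h : s ≤ r)
    (h1 : r ≤ 1) (hf : H (vd w 1) = Fintype.card κ * (1 - s)) : H (vd w r) = Fintype.card κ * (r - s) := by
  apply le_antisymm
  · exact H_sup_dg_le w hs h Finset.univ
  · have h2 := h_sup_dg_dg w h1 Finset.univ (vd w r) (fun j _ => dg_le_vd w r j)
    have h3 : H (vd w 1) ≤ H (vd w r) + Pool.Agent.Helper31.EC.h (vd w 1) (vd w r) := by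
      rw [← H_chain]
      exact H_mono le_sup_right
    have h4 : Pool.Agent.Helper31.EC.h (vd w 1) (vd w r) ≤ (Finset.univ : Finset κ).card * (1 - r) := h2
    rw [Finset.card_univ] at h4
    rw [hf] at h3
    linarith

theorem map_dg_bot {W : Sp} (p : Pj W S) {f : QS S} {s : ℝ} (hs : dg f s = ⊥) : dg (p.qs f) s = ⊥ := by
  rw [p.qs_dg, hs, p.map_bot]

theorem rest_dg_bot (E : ∀ k, (S.F k).Ω → Prop) (hE : 0 < ul (S.pr E)) {f : QS S} {s : ℝ} (hs : dg f s = ⊥) :
    dg (QS.rest E hE f) s = ⊥ := by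
  rw [QS.rest_dg, hs, restL_bot]

/-- full families on events of extensions -/
theorem full_event {κ : Type} [Fintype κ] (w : κ → QS S) {s r : ℝ} (hs : ∀ j, dg (w j) s = ⊥) (h : s ≤ r)
    (h1 : r ≤ 1) (hf : H (vd w 1) = Fintype.card κ * (1 - s)) {W : Sp} (p : Pj W S) (E : ∀ k, (W.F k).Ω → Prop)
    (hE : 0 < ul (W.pr E)) : H (vd (fun j => QS.rest E hE (p.qs (w j))) r) = Fintype.card κ * (r - s) := by
  rw [QS.rest_vd, ← h_bot (restL E hE _), ← restL_bot E hE]
  apply Sp.h_rest_max
  · rw [h_bot, Pj.qs_vd, Pj.H_map]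
    exact full_level w hs h h1 hf
  · intro E' hE'
    rw [restL_bot, h_bot, ← QS.rest_vd]
    exact H_sup_dg_le _ (fun j => rest_dg_bot E' hE' (map_dg_bot p (hs j))) h Finset.univ

/-! ### SPAN -/

/-- data for the span theorem: coordinates `y = a + t u` of weight one, full above the level `s` over a base, point
and line have no common labels -/
structure SD (S : Sp) (ι : Type) [Fintype ι] where
  t : QS S
  a : ι → QS S
  u : ι → QS S
  y : ι → QS S
  A : S.L
  B : S.L
  X : S.L
  s : ℝ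
  hs0 : 0 ≤ s
  hs1 : s < 1
  hy : ∀ i, y i = a i + t * u i
  hA : ∀ i, dg (a i) 1 ≤ A ∧ dg (u i) 1 ≤ A
  hB : dg t 1 ≤ B ∧ ∀ i, dg (y i) 1 ≤ B
  hb : dg t s = ⊥ ∧ ∀ i, dg (y i) s = ⊥
  hf : H (dg t 1 ⊔ vd y 1) = (Fintype.card ι + 1) * (1 - s)
  hX : A ≤ X ∧ B ≤ X
  hc : Cnn A B X

namespace SD

variable {ι : Type} [Fintype ι] (D : SD S ι)

/-- the coordinates with the time -/
def w : Option ι → QS S := fun o => o.elim D.t D.y

theorem w_bot (j : Option ι) : dg (D.w j) D.s = ⊥ := by
  cases j with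
  | none => exact D.hb.1
  | some i => exact D.hb.2 i

theorem w_full : H (vd D.w 1) = Fintype.card (Option ι) * (1 - D.s) := by
  have e : vd D.w 1 = dg D.t 1 ⊔ vd D.y 1 := by
    apply le_antisymm
    · rw [vd_le]
      intro j
      cases j with
      | none => exact le_sup_left
      | some i => exact (dg_le_vd D.y 1 i).trans le_sup_right
    · refine sup_le (dg_le_vd D.w 1 none) ?_
      rw [vd_le]
      intro i
      exact dg_le_vd D.w 1 (some i)
  rw [e, D.hf, Fintype.card_option]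
  push_cast
  ring

/-- THEOREM (SPAN): no hyperplane atoms -/
theorem span {W : Sp} (p : Pj W S) (V : W.L) (hV : I V (p.map D.X) ⊥ = 0) (l : ι → QS W) (l0 : QS W)
    (hl : ∀ i, dg (l i) 1 ≤ V) (hl0 : dg l0 1 ≤ V) (i0 : ι) (hu : IsUnit (l i0)) :
    IsUnit (∑ i, l i * p.qs (D.u i) - l0) := by
  classical
  by_contra hcon
  obtain ⟨d, hd, E, hE, hsm⟩ := exists_small hcon
  obtain ⟨R, hR⟩ : ∃ R, R = QS.rest E hE := ⟨_, rfl⟩
  rw [← hR] at hsm
  obtain ⟨r, hr⟩ : ∃ r, r = min 1 (D.s + d) := ⟨_, rfl⟩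
  have hr1 : r ≤ 1 := by rw [hr]; exact min_le_left _ _
  have hrd : r ≤ D.s + d := by rw [hr]; exact min_le_right _ _
  have hsr : D.s < r := by rw [hr]; exact lt_min D.hs1 (by linarith)
  obtain ⟨V', hV'⟩ : ∃ V', V' = restL E hE V := ⟨_, rfl⟩
  -- known functions
  have kl : ∀ i, ∀ q : ℝ, q ≤ 1 → dg (R (l i)) q ≤ V' := fun i q hq => by
    rw [hR, QS.rest_dg, hV']
    exact restL_mono E hE ((dg_mono _ hq).trans (hl i))
  have kl0 : ∀ q : ℝ, q ≤ 1 → dg (R l0) q ≤ V' := fun q hq => by
    rw [hR, QS.rest_dg, hV']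
    exact restL_mono E hE ((dg_mono _ hq).trans hl0)
  have kf : ∀ (f : QS S) (X : S.L) (q : ℝ), dg f q ≤ X → dg (R (p.qs f)) q ≤ restL E hE (p.map X) := by
    intro f X q hX
    rw [hR, QS.rest_dg, p.qs_dg]
    exact restL_mono E hE (p.map_mono hX)
  -- the rounded form
  obtain ⟨g, hg⟩ : ∃ g, g = ∑ i, R (l i) * R (p.qs (D.y i)) - R l0 * R (p.qs D.t) := ⟨_, rfl⟩
  have gB : dg g r ≤ V' ⊔ restL E hE (p.map D.B) := by
    rw [hg]
    apply (Kn _ r hr1 _).sub_mem
    · refine (Kn _ r hr1 _).sum_mem fun i _ => (Kn _ r hr1 _).mul_mem ?_ ?_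
      · exact (kl i r hr1).trans le_sup_left
      · exact (kf _ D.B r ((dg_mono _ hr1).trans (D.hB.2 i))).trans le_sup_right
    · refine (Kn _ r hr1 _).mul_mem ?_ ?_
      · exact (kl0 r hr1).trans le_sup_left
      · exact (kf _ D.B r ((dg_mono _ hr1).trans D.hB.1)).trans le_sup_right
  have gA : dg g r ≤ V' ⊔ restL E hE (p.map D.A) := by
    obtain ⟨f, hf⟩ : ∃ f, f = ∑ i, R (l i) * R (p.qs (D.u i)) - R l0 := ⟨_, rfl⟩
    have hf' : f ∈ Id (W.rest E) d := by
      have e1 : R (∑ i, l i * p.qs (D.u i) - l0) = f := by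
        rw [hf, map_sub, map_sum]
        congr 1
        exact Finset.sum_congr rfl fun i _ => map_mul _ _ _
      rw [← e1]
      exact hsm
    obtain ⟨t0, ht0⟩ : ∃ t0, t0 = qfl D.t D.s D.hs0 := ⟨_, rfl⟩
    have htm : R (p.qs D.t) - R (p.qs t0) ∈ Id (W.rest E) D.s := by
      rw [← map_sub, ← map_sub, ht0, hR]
      have h1 := sub_qfl_mem D.t D.hs0 D.hs1.le
      have h2 := (p.qs_mem_Id D.hs1.le).mpr h1
      obtain ⟨c, hc⟩ := mk_surj (p.qs (D.t - qfl D.t D.s D.hs0))
      rw [← hc] at h2 ⊢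
      rw [QS.rest_mk, mk_mem_Id D.hs1.le]
      rw [mk_mem_Id D.hs1.le] at h2
      exact h2.rest E hE
    have e2 : g - (∑ i, R (l i) * R (p.qs (D.a i)) + R (p.qs t0) * f) = (R (p.qs D.t) - R (p.qs t0)) * f := by
      rw [hg, hf]
      have e3 : ∀ i, R (p.qs (D.y i)) = R (p.qs (D.a i)) + R (p.qs D.t) * R (p.qs (D.u i)) := fun i => by
        rw [D.hy i, map_add, map_add, map_mul, map_mul]
      have e4 : ∑ i, R (l i) * R (p.qs (D.y i)) = ∑ i, R (l i) * R (p.qs (D.a i)) +
          R (p.qs D.t) * ∑ i, R (l i) * R (p.qs (D.u i)) := by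
        rw [Finset.mul_sum, ← Finset.sum_add_distrib]
        refine Finset.sum_congr rfl fun i _ => ?_
        rw [e3 i]
        ring
      rw [e4]
      ring
    have hdmin : f ∈ Id (W.rest E) (min d 1) := Id_anti (min_le_left _ _) hf'
    have e5 : g - (∑ i, R (l i) * R (p.qs (D.a i)) + R (p.qs t0) * f) ∈ Id (W.rest E) r := by
      rw [e2]
      have h3 := Id_mul D.hs1.le (min_le_right d 1) htm hdmin
      refine Id_anti ?_ h3
      rcases le_total d 1 with h4 | h4
      · rw [min_eq_left h4]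
        exact hrd
      · rw [min_eq_right h4]
        linarith [D.hs0]
    rw [dg_eq_of_sub_mem e5 le_rfl hr1]
    apply (Kn _ r hr1 _).add_mem
    · refine (Kn _ r hr1 _).sum_mem fun i _ => (Kn _ r hr1 _).mul_mem ?_ ?_
      · exact (kl i r hr1).trans le_sup_left
      · exact (kf _ D.A r ((dg_mono _ hr1).trans (D.hA i).1)).trans le_sup_right
    · refine (Kn _ r hr1 _).mul_mem ?_ ?_
      · have h5 : dg t0 r ≤ ⊥ := by
          rw [← D.hb.1, ht0]
          exact qfl_dg_le D.t D.hs0 D.hs1.le r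
        exact (kf t0 D.A r (h5.trans bot_le)).trans le_sup_right
      · rw [hf]
        apply (Kn _ r hr1 _).sub_mem
        · refine (Kn _ r hr1 _).sum_mem fun i _ => (Kn _ r hr1 _).mul_mem ?_ ?_
          · exact (kl i r hr1).trans le_sup_left
          · exact (kf _ D.A r ((dg_mono _ hr1).trans (D.hA i).2)).trans le_sup_right
        · exact (kl0 r hr1).trans le_sup_left
  -- the label
  have nA : I (V' ⊔ dg g r) (restL E hE (p.map D.X)) (restL E hE (p.map D.A)) = 0 := by
    rw [hV'] at gA ⊢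
    exact NL_add (NL_of_indep E hE hV D.hX.1) gA
  have nB : I (V' ⊔ dg g r) (restL E hE (p.map D.X)) (restL E hE (p.map D.B)) = 0 := by
    rw [hV'] at gB ⊢
    exact NL_add (NL_of_indep E hE hV D.hX.2) gB
  have hwX : vd D.w r ≤ D.X := by
    refine le_trans ?_ D.hX.2
    rw [vd_le]
    intro j
    cases j with
    | none => exact (dg_mono _ hr1).trans D.hB.1
    | some i => exact (dg_mono _ hr1).trans (D.hB.2 i)
  have hI : I (V' ⊔ dg g r) (restL E hE (p.map (vd D.w r))) ⊥ = 0 :=
    I_zero_mono (D.hc W p E hE _ nA nB) le_sup_left ((restL_mono E hE (p.map_mono hwX)).trans le_sup_left)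
  -- counting
  obtain ⟨wR, hwR⟩ : ∃ wR : Option ι → QS (W.rest E), wR = fun j => R (p.qs (D.w j)) := ⟨_, rfl⟩
  have e6 : restL E hE (p.map (vd D.w r)) = vd wR r := by
    rw [hwR, hR, QS.rest_vd, Pj.qs_vd]
  have h7 : H (vd wR r) = Fintype.card (Option ι) * (r - D.s) := by
    rw [hwR, hR]
    exact full_event D.w D.w_bot hsr.le hr1 D.w_full p E hE
  rw [e6] at hI
  have h8 : h (vd wR r) (V' ⊔ dg g r) = H (vd wR r) := by
    have h9 := I_zero_iff_h'.mp hI
    rwa [sup_bot_eq, h_bot] at h9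
  obtain ⟨T, hT⟩ : ∃ T : Finset (Option ι), T = Finset.univ.erase (some i0) := ⟨_, rfl⟩
  have hTc : (T.card : ℝ) = Fintype.card (Option ι) - 1 := by
    rw [hT, Finset.card_erase_of_mem (Finset.mem_univ _), Finset.card_univ, Fintype.card_option]
    push_cast
    simp
  obtain ⟨O, hO⟩ : ∃ O, O = T.sup fun j => dg (wR j) r := ⟨_, rfl⟩
  have hOb : H O ≤ T.card * (r - D.s) := by
    rw [hO]
    refine H_sup_dg_le wR (fun j => ?_) hsr.le T
    rw [hwR, hR]
    exact rest_dg_bot E hE (map_dg_bot p (D.w_bot j))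
  have hOk : ∀ j, j ≠ some i0 → dg (wR j) r ≤ O := fun j hj => by
    rw [hO]
    exact Finset.le_sup (f := fun j => dg (wR j) r) (by rw [hT]; exact Finset.mem_erase.mpr ⟨hj, Finset.mem_univ _⟩)
  have h10 : dg (wR (some i0)) r ≤ O ⊔ (V' ⊔ dg g r) := by
    have hRu : IsUnit (R (l i0)) := hu.map R
    obtain ⟨v, hv⟩ := hRu.exists_left_inv
    have e7 : wR (some i0) = v * (g - ∑ i ∈ Finset.univ.erase i0, R (l i) * wR (some i) + R l0 * wR none) := by
      have e8 : g = R (l i0) * wR (some i0) + ∑ i ∈ Finset.univ.erase i0, R (l i) * wR (some i) -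
          R l0 * wR none := by
        rw [hg, hwR]
        have e9 := Finset.add_sum_erase Finset.univ (fun i => R (l i) * R (p.qs (D.y i))) (Finset.mem_univ i0)
        rw [← e9]
        rfl
      rw [e8]
      have e10 : v * (R (l i0) * wR (some i0) + ∑ i ∈ Finset.univ.erase i0, R (l i) * wR (some i) -
          R l0 * wR none - ∑ i ∈ Finset.univ.erase i0, R (l i) * wR (some i) + R l0 * wR none) =
          (v * R (l i0)) * wR (some i0) := by ring
      rw [e10, hv, one_mul]
    have hvd : dg v r ≤ V' := (dg_inv_le hv hr1).trans (kl i0 r hr1)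
    rw [e7]
    refine (Kn _ r hr1 _).mul_mem (hvd.trans (le_sup_left.trans le_sup_right)) ?_
    apply (Kn _ r hr1 _).add_mem
    · apply (Kn _ r hr1 _).sub_mem
      · exact mem_Kn.mpr ((le_sup_right : dg g r ≤ V' ⊔ dg g r).trans le_sup_right)
      · refine (Kn _ r hr1 _).sum_mem fun i hi => (Kn _ r hr1 _).mul_mem ?_ ?_
        · exact (kl i r hr1).trans (le_sup_left.trans le_sup_right)
        · refine (hOk (some i) fun h => ?_).trans le_sup_left
          exact (Finset.mem_erase.mp hi).1 (Option.some_injective _ h)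
    · refine (Kn _ r hr1 _).mul_mem ?_ ?_
      · exact (kl0 r hr1).trans (le_sup_left.trans le_sup_right)
      · exact (hOk none (by simp)).trans le_sup_left
  have h11 : vd wR r ≤ O ⊔ (V' ⊔ dg g r) := by
    rw [vd_le]
    intro j
    by_cases hj : j = some i0
    · rw [hj]
      exact h10
    · exact (hOk j hj).trans le_sup_left
  have h12 : h (vd wR r) (V' ⊔ dg g r) ≤ H O := by
    have h13 := h_congr_left (A := vd wR r ⊔ O) (A' := O) (B := V' ⊔ dg g r)
      (sup_le h11 le_sup_left) ((le_sup_right : O ≤ vd wR r ⊔ O).trans le_sup_left)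
    have h14 : h (vd wR r) (V' ⊔ dg g r) ≤ h (vd wR r ⊔ O) (V' ⊔ dg g r) := h_mono le_sup_left
    rw [h13] at h14
    exact h14.trans (h_le_H _ _)
  rw [h8, h7] at h12
  have h15 := h12.trans hOb
  rw [hTc] at h15
  nlinarith

/-- the matrix of the affine coordinates of copies of the velocity -/
def mat {d : ℕ} (D : SD S (Fin d)) {W : Sp} (P : Fin (d + 1) → Pj W S) :
    Matrix (Fin (d + 1)) (Fin (d + 1)) (QS W) :=
  Matrix.of fun i j => Fin.cases (motive := fun _ => QS W) 1 (fun k => (P i).qs (D.u k)) j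

theorem det_mem_Kn {n : Type} [Fintype n] [DecidableEq n] {W : Sp} (M : Matrix n n (QS W)) (X : W.L)
    (h : ∀ i j, dg (M i j) 1 ≤ X) : dg M.det 1 ≤ X := by
  have h1 : M.det ∈ Kn W 1 le_rfl X := by
    rw [Matrix.det_apply]
    refine (Kn W 1 le_rfl X).sum_mem fun σ _ => ?_
    refine (Kn W 1 le_rfl X).zsmul_mem ?_ _
    exact (Kn W 1 le_rfl X).prod_mem fun i _ => h _ _
  exact h1

/-- independent copies of the velocity are affinely independent -/
theorem span_det {d : ℕ} (D : SD S (Fin d)) {W : Sp} (P : Fin (d + 1) → Pj W S)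
    (hP : ∀ j : Fin (d + 1), I ((Finset.univ.filter (· < j)).sup fun i => (P i).map (vd D.u 1))
      ((P j).map D.X) ⊥ = 0) : IsUnit (D.mat P).det := by
  have key : ∀ (k : ℕ) (hk : k ≤ d), IsUnit ((D.mat P).submatrix (Fin.castLE (Nat.succ_le_succ hk))
      (Fin.castLE (Nat.succ_le_succ hk))).det := by
    intro k
    induction k with
    | zero =>
      intro hk
      have e1 : ((D.mat P).submatrix (Fin.castLE (Nat.succ_le_succ hk)) (Fin.castLE (Nat.succ_le_succ hk))).det = 1 := by
        rw [Matrix.det_succ_row_zero]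
        simp [mat]
      rw [e1]
      exact isUnit_one
    | succ k ih =>
      intro hk
      have hk' : k ≤ d := (Nat.le_succ k).trans hk
      obtain ⟨A, hA⟩ : ∃ A, A = (D.mat P).submatrix (Fin.castLE (Nat.succ_le_succ hk))
        (Fin.castLE (Nat.succ_le_succ hk)) := ⟨_, rfl⟩
      obtain ⟨J, hJ⟩ : ∃ J : Fin (d + 1), J = Fin.castLE (Nat.succ_le_succ hk) (Fin.last (k + 1)) := ⟨_, rfl⟩
      obtain ⟨V, hV⟩ : ∃ V, V = (Finset.univ.filter (· < J)).sup fun i => (P i).map (vd D.u 1) := ⟨_, rfl⟩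
      -- cofactors
      obtain ⟨c, hc⟩ : ∃ c : Fin (k + 2) → QS W, c = fun j : Fin (k + 2) => (-1) ^ (((Fin.last (k + 1) : Fin (k + 2)) : ℕ) + (j : ℕ)) *
        (A.submatrix (Fin.last (k + 1)).succAbove j.succAbove).det := ⟨_, rfl⟩
      have hcV : ∀ j, dg (c j) 1 ≤ V := by
        intro j
        have h1 : c j ∈ Kn W 1 le_rfl V := by
          rw [hc]
          refine (Kn W 1 le_rfl V).mul_mem ?_ ?_
          · exact (Kn W 1 le_rfl V).pow_mem ((Kn W 1 le_rfl V).neg_mem (Kn W 1 le_rfl V).one_mem) _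
          · apply det_mem_Kn
            intro i j'
            rw [hA, Matrix.submatrix_apply, Matrix.submatrix_apply]
            have h2 : ∀ q : Fin (d + 1), dg (D.mat P (Fin.castLE (Nat.succ_le_succ hk)
                ((Fin.last (k + 1)).succAbove i)) q) 1 ≤ V := by
              intro q
              refine Fin.cases ?_ (fun q' => ?_) q
              · exact (Kn W 1 le_rfl V).one_mem
              · show dg ((P (Fin.castLE (Nat.succ_le_succ hk) ((Fin.last (k + 1)).succAbove i))).qs (D.u q')) 1 ≤ V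
                rw [Pj.qs_dg, hV]
                refine le_trans (Pj.map_mono _ (dg_le_vd D.u 1 q')) ?_
                refine Finset.le_sup (f := fun i => (P i).map (vd D.u 1)) ?_
                rw [Finset.mem_filter]
                refine ⟨Finset.mem_univ _, ?_⟩
                rw [hJ]
                rw [Fin.succAbove_last]
                exact Fin.castSucc_lt_last i
            exact h2 _
        exact h1
      have hlast : c (Fin.last (k + 1)) = ((D.mat P).submatrix (Fin.castLE (Nat.succ_le_succ hk'))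
          (Fin.castLE (Nat.succ_le_succ hk'))).det := by
        rw [hc]
        show (-1) ^ _ * _ = _
        have e2 : ((-1 : QS W)) ^ (((Fin.last (k + 1) : Fin (k + 2)) : ℕ) + ((Fin.last (k + 1) : Fin (k + 2)) : ℕ)) = 1 := by
          rw [← two_mul, pow_mul]
          simp
        rw [e2, one_mul, hA, Matrix.submatrix_submatrix]
        rw [Fin.succAbove_last]
        rfl
      have e3 : A.det = ∑ j, c j * A (Fin.last (k + 1)) j := by
        rw [Matrix.det_succ_row A (Fin.last (k + 1)), hc]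
        refine Finset.sum_congr rfl fun j _ => ?_
        ring
      obtain ⟨l, hl⟩ : ∃ l : Fin d → QS W, l = fun i : Fin d => if h : (i : ℕ) < k + 1 then c ⟨(i : ℕ) + 1, by omega⟩ else 0 :=
        ⟨_, rfl⟩
      have e4 : ∑ j, c j * A (Fin.last (k + 1)) j = ∑ i, l i * (P J).qs (D.u i) - (-c 0) := by
        rw [Fin.sum_univ_succ]
        have e5 : A (Fin.last (k + 1)) 0 = 1 := by
          rw [hA]
          rfl
        have e6 : ∑ i : Fin (k + 1), c i.succ * A (Fin.last (k + 1)) i.succ = ∑ i, l i * (P J).qs (D.u i) := by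
          apply Fintype.sum_of_injective (Fin.castLE hk) (Fin.castLE_injective hk)
          · intro i hi
            have h3 : ¬ (i : ℕ) < k + 1 := fun h => hi ⟨⟨i, h⟩, Fin.ext rfl⟩
            rw [hl]
            show (if h : (i : ℕ) < k + 1 then c ⟨(i : ℕ) + 1, by omega⟩ else 0) * _ = 0
            rw [dif_neg h3, zero_mul]
          · intro i
            have h4 : l (Fin.castLE hk i) = c i.succ := by
              rw [hl]
              show (if h : ((Fin.castLE hk i : Fin d) : ℕ) < k + 1 then c ⟨((Fin.castLE hk i : Fin d) : ℕ) + 1, by omega⟩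
                else 0) = c i.succ
              have h5 : ((Fin.castLE hk i : Fin d) : ℕ) < k + 1 := i.2
              rw [dif_pos h5]
              rfl
            rw [h4, hA, hJ]
            rfl
        rw [e5, e6]
        ring
      rw [← hA, e3, e4]
      have h0d : k < d := hk
      refine D.span (P J) V ?_ l (-c 0) (fun i => ?_) ?_ ⟨k, h0d⟩ ?_
      · rw [hV]
        exact hP J
      · by_cases h6 : (i : ℕ) < k + 1
        · have h7 : l i = c ⟨(i : ℕ) + 1, by omega⟩ := by
            rw [hl]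
            exact dif_pos h6
          rw [h7]
          exact hcV _
        · have h7 : l i = 0 := by
            rw [hl]
            exact dif_neg h6
          rw [h7]
          exact (Kn W 1 le_rfl V).zero_mem
      · exact (Kn W 1 le_rfl V).neg_mem (hcV 0)
      · have h8 : l ⟨k, h0d⟩ = c (Fin.last (k + 1)) := by
          rw [hl]
          show (if h : k < k + 1 then c ⟨k + 1, by omega⟩ else 0) = _
          rw [dif_pos (Nat.lt_succ_self k)]
          rfl
        rw [h8, hlast]
        exact ih hk'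
  have h1 := key d le_rfl
  exact h1

end SD

end

end Pool.Agent.Helper80.MX
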