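import Pool.Agent.Helper80.MX.Rich
import Pool.Agent.Helper51.MX.Typ

/-! Chapter MAX (5.3), R1: for almost every window the first digits of the direction are independent of the labels of
the nearby windows up to `o(n')`, on exact labels `kappa_c`; richness over labels with leak. -/

set_option autoImplicit false

namespace Pool.Agent.Helper80.MX

open Finset Filter Topology Pool.Agent.Helper69.RK Pool.Agent.Helper31.EC Pool.Agent.Helper40.EL
open Pool.Agent.Helper42.NS Pool.Agent.Helper52.KP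

noncomputable section

open Sp Sys MeasureTheory

variable {S : Sp} {m : ℕ}

/-- entropy of the first `u` digits of the direction over `kappa_c` -/
def fx (s : Sys S m) (u c : ℝ) : ℝ := H (up1 (kap s c) (s.x.dg u))

theorem fx_nonneg (s : Sys S m) (u c : ℝ) : 0 ≤ fx s u c := H_nonneg _

theorem fx_le (s : Sys S m) {u : ℝ} (hu : 0 ≤ u) (c : ℝ) : fx s u c ≤ m * u :=
  (H_up1_le _ _).trans (s.x.H_dg_le hu)

theorem fx_eq {s : Sys S m} {c : ℝ} {l : Lab S} (hl : IsKap s c l) (u : ℝ) : H (up1 l (s.x.dg u)) = fx s u c :=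
  hl.H_eq (kap_isKap s c) _

theorem fx_anti (s : Sys S m) (u : ℝ) : Antitone (fx s u) := fun c c' h =>
  (kap_isKap s c).H_anti (kap_isKap s c') h _

/-- (R1) for one system -/
theorem R1 (s : Sys S m) : ∀ᵐ c ∂(volume.restrict (Set.Ioc (0:ℝ) 1)), ∀ C : ℕ, ∀ᶠ j : ℕ in atTop,
    fx s (C / 2 ^ j) (c - C / 2 ^ j) - fx s (C / 2 ^ j) (c + C / 2 ^ j) < (2:ℝ) ^ (-(3 * (j:ℝ) / 2)) :=
  Pool.Agent.Helper51.MX.K1two m (fx s) (fx_nonneg s) (fun _ c hu => fx_le s hu c) (fx_anti s)

/-- the rescaled function of (R1) for sequences of systems, in the form of `M7` -/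
def fxs (s : Sys S m) (d u c : ℝ) : ℝ := fx s (d * u) (d * c) / d

theorem fxs_nonneg (s : Sys S m) {d : ℝ} (hd : 0 < d) (u c : ℝ) : 0 ≤ fxs s d u c :=
  div_nonneg (fx_nonneg _ _ _) hd.le

theorem fxs_le (s : Sys S m) {d : ℝ} (hd : 0 < d) {u : ℝ} (hu : 0 ≤ u) (c : ℝ) : fxs s d u c ≤ m * u := by
  unfold fxs
  rw [div_le_iff₀ hd]
  have h1 := fx_le s (mul_nonneg hd.le hu) (d * c)
  linarith

theorem fxs_anti (s : Sys S m) {d : ℝ} (hd : 0 < d) (u : ℝ) : Antitone (fxs s d u) := fun c c' h => by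
  unfold fxs
  exact div_le_div_of_nonneg_right (fx_anti s _ (mul_le_mul_of_nonneg_left h hd.le)) hd.le

/-! ### richness over labels with leak -/

/-- `h(x_r | B, V) >= g r - leak_B(V)` -/
theorem Rich.leak {s : Sys S m} {g : ℝ} (h : Rich s g) {T : Sp} (p : Pj T S) (E : ∀ k, (T.F k).Ω → Prop)
    (hE : 0 < ul (T.pr E)) (V : (T.rest E).L) {r : ℝ} (hr0 : 0 ≤ r) (hr1 : r ≤ 1) :
    g * r ≤ Pool.Agent.Helper31.EC.h (restL E hE (p.map (s.x.dg r))) (V ⊔ restL E hE (p.map (lB s))) +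
      I V (restL E hE (p.map (s.xi 1))) (restL E hE (p.map (lB s))) := by
  have h1 := h.restL_ge p E hE hr0 hr1
  have h2 : I V (restL E hE (p.map (s.x.dg r))) (restL E hE (p.map (lB s))) ≤
      I V (restL E hE (p.map (s.xi 1))) (restL E hE (p.map (lB s))) :=
    I_mono_right ((restL_mono E hE (p.map_mono (s.x_le_xi hr1))).trans le_sup_left)
  rw [I_eq'] at h2
  linarith

end

end Pool.Agent.Helper80.MX
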