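import Pool.Agent.Helper80.MX.Span
import Pool.Agent.Helper52.KP.Agr

/-! Connectedness over maximal labels in the lattice calculus: if `l` is a maximal double Markov label of `(A, B)`, then
over `l` the pair `(A, B)` has no common labels, on all events of positive probability of all extensions. No robustness
is needed. -/

set_option autoImplicit false

namespace Pool.Agent.Helper80.MX

open Finset Filter Topology Pool.Agent.Helper69.RK Pool.Agent.Helper31.EC Pool.Agent.Helper40.EL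

noncomputable section

/-! ### resampling given a partition -/

section fl

variable {F : FSp} (l : FLab F) (A : Setoid F.Ω)

/-- the space of a label and a copy of `F` which agree in the partition `A` (and in the base) -/
def rtD : FAm l.T F where
  α := Quotient A × Quotient F.Z
  f := fun ω => (Quotient.mk A (l.p.π ω), Quotient.mk F.Z (l.p.π ω))
  g := fun ω => (Quotient.mk A ω, Quotient.mk F.Z ω)
  law := by
    intro a
    have h1 := ms_push l.p.π l.T.μ (fun ω => (Quotient.mk A ω, Quotient.mk F.Z ω)) a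
    rw [l.p.law] at h1
    exact h1
  Zr := Setoid.ker Prod.snd
  hZ1 := by
    intro ω ω' h h'
    rw [l.p.hZ ω ω' h h']
    exact (Quotient.eq (r := F.Z)).symm
  hZ2 := by
    intro ω ω' _ _
    exact (Quotient.eq (r := F.Z)).symm

/-- the label attached to a copy of the space, given the partition `A` -/
def rt : FLab F where
  T := (rtD l A).sp
  p := (rtD l A).p2
  hn := l.hn
  V := Setoid.comap (rtD l A).p1.π l.V

theorem rt_v : (rt l A).v = (rtD l A).p1.map l.v := rfl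

theorem rt_top : (rtD l A).p2.top = (rtD l A).p2.map (fc (⊥ : Setoid F.Ω)) := by
  rw [(rtD l A).p2.map_fc]
  rfl

theorem rt_common {B : Setoid F.Ω} (h : A ≤ B) : (rtD l A).p1.map (l.p.map (fc B)) = (rtD l A).p2.map (fc B) := by
  have key : ∀ w, (rtD l A).sp.μ w ≠ 0 → B (l.p.π w.1) w.2 := by
    intro w hw
    have h1 := ((rtD l A).supp w hw).1
    have h2 : (Quotient.mk A (l.p.π w.1), Quotient.mk F.Z (l.p.π w.1)) = (Quotient.mk A w.2, Quotient.mk F.Z w.2) := h1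
    rw [Prod.mk.injEq] at h2
    exact h (Quotient.exact h2.1)
  rw [l.p.map_fc, (rtD l A).p1.map_fc, (rtD l A).p2.map_fc]
  apply le_antisymm
  · apply fc_le
    intro w w' hw hw' _ e
    show B (l.p.π w.1) (l.p.π w'.1)
    have e' : B w.2 w'.2 := e
    exact B.trans (key w hw) (B.trans e' (B.symm (key w' hw')))
  · apply fc_le
    intro w w' hw hw' _ e
    show B w.2 w'.2
    have e' : B (l.p.π w.1) (l.p.π w'.1) := e
    exact B.trans (B.symm (key w hw)) (B.trans e' (key w' hw'))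

theorem rt_ker : fc (Setoid.ker (rtD l A).f) ≤ l.p.map (fc A) := by
  rw [l.p.map_fc]
  apply fc_le
  intro ω ω' h h' hZ e
  show (Quotient.mk A (l.p.π ω), Quotient.mk F.Z (l.p.π ω)) = (Quotient.mk A (l.p.π ω'), Quotient.mk F.Z (l.p.π ω'))
  rw [Prod.mk.injEq]
  exact ⟨Quotient.sound e, Quotient.sound ((l.p.hZ ω ω' h h').mp hZ)⟩

theorem rt_ker' : l.p.map (fc A) ≤ fc (Setoid.ker (rtD l A).f) := by
  rw [l.p.map_fc]
  apply fc_le
  intro ω ω' _ _ _ e
  have h2 : (Quotient.mk A (l.p.π ω), Quotient.mk F.Z (l.p.π ω)) =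
    (Quotient.mk A (l.p.π ω'), Quotient.mk F.Z (l.p.π ω')) := e
  rw [Prod.mk.injEq] at h2
  show A (l.p.π ω) (l.p.π ω')
  exact (Quotient.eq (r := A)).mp h2.1

theorem rt_indep (y : FL l.T) (z : FL F) :
    I ((rtD l A).p1.map y) ((rtD l A).p2.map z) ((rtD l A).p1.map (l.p.map (fc A))) = 0 := by
  have h1 := (rtD l A).indep y z
  rw [le_antisymm (rt_ker l A) (rt_ker' l A)] at h1
  exact h1

theorem rt_leak_self : (rt l A).leak (fc A) = 0 := by
  have h1 : (rt l A).leak (fc A) = I ((rtD l A).p1.map l.v) (rtD l A).p2.top ((rtD l A).p2.map (fc A)) := rfl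
  rw [h1, rt_top, ← rt_common l A le_rfl]
  exact rt_indep l A _ _

theorem rt_I {B : Setoid F.Ω} (h : A ≤ B) : I (rt l A).v ((rt l A).p.map (fc B)) ⊥ = I l.v (l.p.map (fc B)) ⊥ := by
  have h2 : I (rt l A).v ((rt l A).p.map (fc B)) ⊥ = I ((rtD l A).p1.map l.v) ((rtD l A).p2.map (fc B)) ⊥ := rfl
  rw [h2, ← rt_common l A h, ← (rtD l A).p1.map_bot, (rtD l A).p1.I_map]

/-- the information after resampling -/
theorem rt_info : (rt l A).info = I l.v (l.p.map (fc A)) ⊥ := by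
  rw [(rt l A).info_eq_leak (fc A), rt_leak_self, add_zero, rt_I l A le_rfl]

/-- the leak after resampling -/
theorem rt_leak {B : Setoid F.Ω} (h : A ≤ B) : (rt l A).leak (fc B) = I l.v (l.p.map (fc A)) (l.p.map (fc B)) := by
  have h1 := (rt l A).info_eq_leak (fc B)
  rw [rt_info, rt_I l A h] at h1
  have h2 := I_chain_right l.v (l.p.map (fc B)) (l.p.map (fc A)) ⊥
  rw [sup_bot_eq, ← l.p.map_sup, sup_eq_right.mpr (fc_mono h)] at h2
  linarith

end fl

/-! ### trivial pairs -/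

variable {S : Sp}

/-- limits of conditional entropies -/
theorem tend_h {T : Sp} (V A : T.Inf) : Tendsto (fun k => h (fc (V.1 k) : FL (T.F k)) (fc (A.1 k)) / (T.F k).n) UF
    (𝓝 (h (Sp.cl V) (Sp.cl A))) := by
  have h1 := (rpI_Bd V).tendsto (rpI A)
  rw [hr_rpI] at h1
  exact h1

/-- a label of an extension, resampled given `X` -/
def labV {T : Sp} (q : Pj T S) (V : T.Inf) (X : S.Inf) : Lab S := fun k =>
  rt ⟨T.F k, q.fp k, q.hn k, V.1 k⟩ (X.1 k)

theorem labV_leak {T : Sp} (q : Pj T S) (V : T.Inf) (X A : S.Inf) (hA : ∀ k, X.1 k ≤ A.1 k)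
    (h0 : I (Sp.cl V) (q.map (Sp.cl X)) (q.map (Sp.cl A)) = 0) :
    Nul S (fun k => (labV q V X k).leak (rpI A k)) := by
  have h1 : ∀ k, (labV q V X k).leak (rpI A k) = h (fc (V.1 k) : FL (T.F k)) (fc ((q.mapI A).1 k)) -
      h (fc (V.1 k) : FL (T.F k)) (fc ((q.mapI X).1 k)) := by
    intro k
    have h2 := rt_leak ⟨T.F k, q.fp k, q.hn k, V.1 k⟩ (X.1 k) (hA k)
    have h3 : (labV q V X k).leak (rpI A k) = (rt ⟨T.F k, q.fp k, q.hn k, V.1 k⟩ (X.1 k)).leak (fc (A.1 k)) := rfl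
    rw [h3, h2, I_eq, ← (q.fp k).map_sup, sup_eq_left.mpr (fc_mono (hA k))]
    rfl
  have h4 := (tend_h V (q.mapI A)).sub (tend_h V (q.mapI X))
  have h5 : h (Sp.cl V) (Sp.cl (q.mapI A)) - h (Sp.cl V) (Sp.cl (q.mapI X)) = 0 := by
    have hAX : Sp.cl (q.mapI A) ≤ Sp.cl (q.mapI X) := by
      rw [← q.map_cl, ← q.map_cl]
      exact q.map_mono (Sp.Inf.le_of_le _ _ (Eventually.of_forall hA))
    rw [I_eq, q.map_cl, q.map_cl, sup_eq_left.mpr hAX] at h0
    exact h0
  rw [h5] at h4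
  unfold Nul
  refine h4.congr fun k => ?_
  show _ = (labV q V X k).leak (rpI A k) / (S.F k).n
  rw [h1 k, sub_div, q.hn k]

theorem labV_info {T : Sp} (q : Pj T S) (V : T.Inf) (X : S.Inf) :
    (labV q V X).info = I (Sp.cl V) (q.map (Sp.cl X)) ⊥ := by
  have h1 : ∀ k, (labV q V X k).info = h (fc (V.1 k) : FL (T.F k)) (fc ((Sp.Inf.bot : T.Inf).1 k)) -
      h (fc (V.1 k) : FL (T.F k)) (fc ((q.mapI X).1 k)) := by
    intro k
    have h2 := rt_info ⟨T.F k, q.fp k, q.hn k, V.1 k⟩ (X.1 k)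
    have h3 : (labV q V X k).info = (rt ⟨T.F k, q.fp k, q.hn k, V.1 k⟩ (X.1 k)).info := rfl
    rw [h3, h2, I_eq, sup_bot_eq]
    rfl
  have h4 := (tend_h V (Sp.Inf.bot : T.Inf)).sub (tend_h V (q.mapI X))
  have h5 : h (Sp.cl V) (Sp.cl (Sp.Inf.bot : T.Inf)) - h (Sp.cl V) (Sp.cl (q.mapI X)) =
      I (Sp.cl V) (q.map (Sp.cl X)) ⊥ := by
    rw [I_eq, q.map_cl, sup_bot_eq, Sp.cl_bot]
  rw [h5] at h4
  apply ul_eq
  refine h4.congr fun k => ?_
  show _ = (labV q V X k).info / (S.F k).n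
  rw [h1 k, sub_div, q.hn k]

/-- a trivial pair has no common labels -/
theorem I_of_triv {A B X : S.Inf} (hA : ∀ k, X.1 k ≤ A.1 k) (hB : ∀ k, X.1 k ≤ B.1 k)
    (htr : ∀ l : Lab S, l.DM (rpI A) (rpI B) → l.info ≤ 0) {T : Sp} (q : Pj T S) (V : T.L)
    (h1 : I V (q.map (Sp.cl X)) (q.map (Sp.cl A)) = 0) (h2 : I V (q.map (Sp.cl X)) (q.map (Sp.cl B)) = 0) :
    I V (q.map (Sp.cl X)) ⊥ = 0 := by
  induction V using Sp.cl_ind with | h V
  have h3 : (labV q V X).DM (rpI A) (rpI B) := ⟨labV_leak q V X A hA h1, labV_leak q V X B hB h2⟩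
  have h4 := htr _ h3
  rw [labV_info] at h4
  exact le_antisymm h4 (I_nonneg _ _ _)

/-- triviality passes to events of extensions -/
theorem triv_im {A B : S.Inf} (htr : ∀ l : Lab S, l.DM (rpI A) (rpI B) → l.info ≤ 0) {W : Sp} (p : Pj W S)
    (E : ∀ k, (W.F k).Ω → Prop) (hE : 0 < ul (W.pr E)) (l : Lab (Sp.im p E))
    (hl : l.DM (rpI (Sp.imI p E A)) (rpI (Sp.imI p E B))) : l.info ≤ 0 := by
  obtain ⟨t, ht⟩ : ∃ t : Lab S, t = fun k => ⟨W.F k, p.fp k, p.hn k, ⊤⟩ := ⟨_, rfl⟩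
  have hv : ∀ k, (t k).v = ⊥ := fun k => by rw [ht]; rfl
  have hlk : ∀ (k : ℕ) (x : FL (S.F k)), (t k).leak x = 0 := fun k x => by
    unfold FLab.leak
    rw [hv k]
    exact I_zero_of_le_left bot_le
  have hti : ∀ k, (t k).info = 0 := fun k => by
    unfold FLab.info
    rw [hv k]
    exact I_zero_of_le_left bot_le
  have htm : t.IsMax (rpI A) (rpI B) := by
    refine ⟨⟨?_, ?_⟩, fun l' hl' => ?_⟩
    · have e : (fun k => (t k).leak (rpI A k)) = fun _ => 0 := funext fun k => hlk k _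
      rw [e]; exact Nul_zero S
    · have e : (fun k => (t k).leak (rpI B k)) = fun _ => 0 := funext fun k => hlk k _
      rw [e]; exact Nul_zero S
    · have e : t.info = 0 := by
        show ul (fun k => (t k).info / (S.F k).n) = 0
        have e : (fun k => (t k).info / (S.F k).n) = fun _ => (0 : ℝ) := funext fun k => by rw [hti k, zero_div]
        rw [e, ul_const]
      rw [e]
      exact htr l' hl'
  subst ht
  have h1 := Lab.IsMax.im_max htm E hE (rpI_Bd A) (pof_Bd (Sp.im_VB p (fun k ω => ¬ E k ω) A.2))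
  have h2 := h1.2 l hl
  refine h2.trans (le_of_eq ?_)
  have h3 : ∀ k, ((Lab.im (fun k => ⟨W.F k, p.fp k, p.hn k, ⊤⟩ : Lab S) E) k).info = 0 := fun k => by
    have h4 := hti k
    unfold FLab.info
    have h5 : ((Lab.im (fun k => ⟨W.F k, p.fp k, p.hn k, ⊤⟩ : Lab S) E) k).v = ⊥ := rfl
    rw [h5]
    exact I_zero_of_le_left bot_le
  show ul (fun k => ((Lab.im (fun k => ⟨W.F k, p.fp k, p.hn k, ⊤⟩ : Lab S) E) k).info / _) = 0
  have e : (fun k => ((Lab.im (fun k => ⟨W.F k, p.fp k, p.hn k, ⊤⟩ : Lab S) E) k).info /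
      ((Sp.im p E).F k).n) = fun _ => (0 : ℝ) := funext fun k => by rw [h3 k, zero_div]
  exact (congrArg ul e).trans (ul_const 0)

/-- TRIVIAL PAIRS ARE CONNECTED -/
theorem cnn_of_triv {A B X : S.L} (hA : A ≤ X) (hB : B ≤ X) (htr : ∀ l : Lab S, l.DML A B → l.info ≤ 0) :
    Cnn A B X := by
  intro W p E hE V h1 h2
  obtain ⟨Xi, hXi⟩ : ∃ Xi : S.Inf, Xi = Sp.Inf.sup (Sp.Inf.sup (rpo X) (rpo A)) (rpo B) := ⟨_, rfl⟩
  have e0 : Sp.cl Xi = X := by
    rw [hXi, Sp.cl_sup, Sp.cl_sup, cl_rpo, cl_rpo, cl_rpo, sup_eq_left.mpr hA, sup_eq_left.mpr hB]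
  have e : ∀ Y : S.Inf, (Sp.imq p E).map (Sp.cl (Sp.imI p E Y)) = Sp.restL E hE (p.map (Sp.cl Y)) := fun Y => rfl
  have eX := e Xi
  have eA := e (rpo A)
  have eB := e (rpo B)
  rw [e0] at eX
  rw [cl_rpo] at eA eB
  have hXA : ∀ k, (Sp.imI p E Xi).1 k ≤ (Sp.imI p E (rpo A)).1 k := fun k => by
    rw [hXi]
    show (rpo X).1 k ⊓ (rpo A).1 k ⊓ (rpo B).1 k ≤ (rpo A).1 k
    exact inf_le_left.trans inf_le_right
  have hXB : ∀ k, (Sp.imI p E Xi).1 k ≤ (Sp.imI p E (rpo B)).1 k := fun k => by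
    rw [hXi]
    show (rpo X).1 k ⊓ (rpo A).1 k ⊓ (rpo B).1 k ≤ (rpo B).1 k
    exact inf_le_right
  rw [← eX, ← eA] at h1
  rw [← eX, ← eB] at h2
  rw [← eX]
  exact I_of_triv (S := Sp.im p E) hXA hXB (fun l hl => triv_im htr p E hE l hl) (Sp.imq p E) V h1 h2

/-- over a maximal label the pair is connected -/
theorem cnn_over {A B : S.L} {l : Lab S} (hl : l.IsMaxL A B) {c : ℝ} (hc : 0 < c) {X : (l.ovr c hc).L}
    (hA : l.upL c hc A ≤ X) (hB : l.upL c hc B ≤ X) : Cnn (l.upL c hc A) (l.upL c hc B) X :=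
  cnn_of_triv hA hB fun l2 h2 => (hl.triv l2 h2).le

/-- the space over `kappa_c`: the line with the first digits of the time, and the point with the time, have no common
labels, on all events of all extensions -/
theorem cnn_kap {m : ℕ} {s : Sys S m} {c : ℝ} (h1 : c ≤ 1) {l : Lab S} (hl : IsKap s c l) :
    Cnn (up1 l (lA s c)) (up1 l (lB s)) (up1 l (s.xi 1 ⊔ s.T)) := by
  apply cnn_over (IsKap_iff.mp hl) one_pos
  · exact up1_mono l (sup_le_sup_left (s.t.dg_mono h1) _)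
  · exact up1_mono l (B_le s)

end

end Pool.Agent.Helper80.MX
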